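import Pool.Agent.Helper69.DC.Goals
import Pool.Agent.Helper28.Ball.Polar

/-!
# Project DC: existence of a second order differential equation (`G_PDE`)
-/

set_option autoImplicit false

namespace Pool.Agent.Helper96.DC

open Pool.Agent.Helper69.DC Finset MvPolynomial ComplexConjugate
open Pool.Agent.Helper28.Ball

section

variable {m N : ℕ}

/-- The variables of `F̄`. -/
def rho (m : ℕ) : Fin m ⊕ Unit → V3 m :=
  Sum.elim (fun i => Sum.inr (Sum.inl i)) (fun _ => Sum.inr (Sum.inr ()))

theorem rho_injective (m : ℕ) : Function.Injective (rho m) := by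
  rintro (i | u) (j | v) h
  · simp only [rho, Sum.elim_inl, Sum.inr.injEq, Sum.inl.injEq] at h
    rw [h]
  · simp [rho] at h
  · simp [rho] at h
  · rfl

/-- `f k` with conjugated coefficients in the variables `(β', b)`. -/
noncomputable def fb (f : Fin (N + 1) → MvPolynomial (Fin m ⊕ Unit) ℂ) (k : Fin (N + 1)) :
    MvPolynomial (V3 m) ℂ := rename (rho m) (cj (f k))

theorem fb_ne_zero {f : Fin (N + 1) → MvPolynomial (Fin m ⊕ Unit) ℂ} {k : Fin (N + 1)}
    (h : f k ≠ 0) : fb f k ≠ 0 := by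
  unfold fb
  rw [Ne, map_eq_zero_iff _ (rename_injective _ (rho_injective m))]
  unfold cj
  rw [map_eq_zero_iff _ (MvPolynomial.map_injective _ (starRingEnd ℂ).injective)]
  exact h

theorem pderiv_fb (f : Fin (N + 1) → MvPolynomial (Fin m ⊕ Unit) ℂ) (k : Fin (N + 1))
    (i : Fin m) : pderiv (Sum.inl i) (fb f k) = 0 := by
  classical
  apply pderiv_eq_zero_of_notMem_vars
  intro h
  have h1 := vars_rename (rho m) (cj (f k)) h
  rw [mem_image] at h1
  obtain ⟨x, -, hx⟩ := h1
  rcases x with j | u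
  · simp [rho] at hx
  · simp [rho] at hx

theorem DD_zero (P : MvPolynomial (V3 m) ℂ) : DD 0 P = P := rfl

theorem DD_succ (i : Fin m) (P : MvPolynomial (V3 m) ℂ) :
    DD i.succ P = pderiv (Sum.inl i) P := rfl

theorem DD_sub (i : Fin (m + 1)) (P Q : MvPolynomial (V3 m) ℂ) :
    DD i (P - Q) = DD i P - DD i Q := by
  refine Fin.cases ?_ (fun i => ?_) i
  · rfl
  · rw [DD_succ, DD_succ, DD_succ, map_sub]

theorem DD_map_zero (i : Fin (m + 1)) : DD i (0 : MvPolynomial (V3 m) ℂ) = 0 := by
  refine Fin.cases ?_ (fun i => ?_) i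
  · rfl
  · rw [DD_succ, map_zero]

theorem DD_sum (i : Fin (m + 1)) {ι : Type} (s : Finset ι) (P : ι → MvPolynomial (V3 m) ℂ) :
    DD i (∑ l ∈ s, P l) = ∑ l ∈ s, DD i (P l) := by
  refine Fin.cases ?_ (fun i => ?_) i
  · rfl
  · simp only [DD_succ, map_sum]

theorem DD_mul_fb (i : Fin (m + 1)) (P : MvPolynomial (V3 m) ℂ)
    (f : Fin (N + 1) → MvPolynomial (Fin m ⊕ Unit) ℂ) (k : Fin (N + 1)) :
    DD i (P * fb f k) = DD i P * fb f k := by
  refine Fin.cases ?_ (fun i => ?_) i
  · rfl
  · rw [DD_succ, DD_succ, pderiv_mul, pderiv_fb, mul_zero, add_zero]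

theorem eval_gg (f : Fin (N + 1) → MvPolynomial (Fin m ⊕ Unit) ℂ) (k : Fin (N + 1))
    (x : V3 m → ℂ) : eval x (gg f k) =
      fv f (fun i => x (Sum.inl i))
        (∑ i, x (Sum.inl i) * x (Sum.inr (Sum.inl i)) - x (Sum.inr (Sum.inr ()))) k := by
  unfold gg fv
  rw [← coe_aeval_eq_eval, ← coe_aeval_eq_eval]
  show (aeval x) (aeval _ (f k)) = aeval _ (f k)
  rw [← AlgHom.comp_apply, comp_aeval]
  refine congrArg (fun g : (Fin m ⊕ Unit) → ℂ => aeval g (f k)) ?_
  funext j
  rcases j with j | j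
  · simp
  · simp

theorem eval_fb (f : Fin (N + 1) → MvPolynomial (Fin m ⊕ Unit) ℂ) (k : Fin (N + 1))
    (x : V3 m → ℂ) : eval x (fb f k) =
      conj (fv f (fun i => conj (x (Sum.inr (Sum.inl i)))) (conj (x (Sum.inr (Sum.inr ())))) k) := by
  unfold fb fv
  rw [eval_rename, eval_cj]
  refine congrArg (fun w : (Fin m ⊕ Unit) → ℂ => conj (eval w (f k))) ?_
  funext j
  rcases j with j | j
  · rfl
  · rfl

/-- The polarised identity. -/
theorem ident {d : ℕ} {f : Fin (N + 1) → MvPolynomial (Fin m ⊕ Unit) ℂ} (hf' : SMap m N d f) :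
    gg f 0 * fb f 0 - ∑ l : Fin N, gg f l.succ * fb f l.succ = 0 := by
  apply MvPolynomial.funext
  intro x
  rw [map_sub, map_mul, map_sum, map_zero]
  simp only [map_mul, eval_gg, eval_fb]
  have h := hf'.orth (fun i => x (Sum.inl i))
    (∑ i, x (Sum.inl i) * x (Sum.inr (Sum.inl i)) - x (Sum.inr (Sum.inr ())))
    (fun i => conj (x (Sum.inr (Sum.inl i)))) (conj (x (Sum.inr (Sum.inr ())))) (by
      simp only [Complex.conj_conj]
      ring)
  exact h

/-- The identity after two derivations. -/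
theorem ident2 {d : ℕ} {f : Fin (N + 1) → MvPolynomial (Fin m ⊕ Unit) ℂ} (hf' : SMap m N d f)
    (i j : Fin (m + 1)) : DD i (DD j (gg f 0)) * fb f 0 -
      ∑ l : Fin N, DD i (DD j (gg f l.succ)) * fb f l.succ = 0 := by
  have h := congrArg (fun P => DD i (DD j P)) (ident hf')
  simp only [DD_sub, DD_sum, DD_mul_fb, DD_map_zero] at h
  exact h

end

/-! ### The linear system -/

theorem gauss (n : ℕ) : 2 * ∑ j ∈ range n, (j + 1) = n * (n + 1) := by
  induction n with
  | zero => simp
  | succ n ih =>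
    rw [sum_range_succ, mul_add, ih]
    ring

theorem card_pairs (n : ℕ) : 2 * Fintype.card {p : Fin n × Fin n // p.1 ≤ p.2} = n * (n + 1) := by
  rw [Fintype.card_subtype, card_filter, Fintype.sum_prod_type_right]
  have h : ∀ j : Fin n, ∑ i : Fin n, (if ((i, j) : Fin n × Fin n).1 ≤ ((i, j) : Fin n × Fin n).2
      then 1 else 0) = (j : ℕ) + 1 := by
    intro j
    rw [← card_filter]
    have : (univ.filter fun i : Fin n => i ≤ j) = Iic j := by
      ext i
      simp
    show (univ.filter fun i : Fin n => i ≤ j).card = _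
    rw [this, Fin.card_Iic]
  rw [sum_congr rfl fun j _ => h j, ← gauss n, Finset.sum_range]

/-- More unknowns than equations over a commutative ring. -/
theorem exists_sol {R ι κ : Type} [CommRing R] [Nontrivial R] [Fintype ι] [Fintype κ]
    (h : Fintype.card κ < Fintype.card ι) (D : κ → ι → R) :
    ∃ v : ι → R, v ≠ 0 ∧ ∀ k, ∑ p, v p * D k p = 0 := by
  classical
  by_contra hc
  push Not at hc
  have hinj : Function.Injective (Matrix.mulVecLin (Matrix.of D)) := by
    rw [injective_iff_map_eq_zero]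
    intro v hv
    by_contra hv0
    obtain ⟨k, hk⟩ := hc v hv0
    apply hk
    have := congrFun hv k
    rw [← Pi.zero_apply (M := fun _ : κ => R) k, ← this]
    show _ = ∑ p, D k p * v p
    exact sum_congr rfl fun p _ => mul_comm _ _
  exact absurd (card_le_of_injective R _ hinj) (by omega)

theorem g_pde : G_PDE := by
  intro m N d f hf' hN
  classical
  -- a nonzero component
  obtain ⟨k₀, hk₀⟩ : ∃ k, f k ≠ 0 := by
    by_contra hc
    push Not at hc
    exact not_isUnit_zero (hf'.cop 0 fun k => by rw [hc k])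
  have hcard : Fintype.card {k : Fin (N + 1) // k ≠ k₀} <
      Fintype.card {p : Fin (m + 1) × Fin (m + 1) // p.1 ≤ p.2} := by
    have h1 := card_pairs (m + 1)
    have h2 : Fintype.card {k : Fin (N + 1) // k ≠ k₀} = N := by
      rw [Fintype.card_subtype_compl, Fintype.card_fin, Fintype.card_subtype_eq]
      rfl
    rw [h2]
    have h3 : (m + 1) * (m + 1 + 1) = (m + 1) * (m + 2) := by ring
    omega
  obtain ⟨v, hv0, hv⟩ := exists_sol hcard (fun k p => DD p.1.1 (DD p.1.2 (gg f k.1)))
  set Q : Fin (m + 1) → Fin (m + 1) → MvPolynomial (V3 m) ℂ :=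
    fun i j => if h : i ≤ j then v ⟨(i, j), h⟩ else 0 with hQ
  have hQv : ∀ p : {p : Fin (m + 1) × Fin (m + 1) // p.1 ≤ p.2}, Q p.1.1 p.1.2 = v p := by
    intro p
    rw [hQ]
    simp only
    rw [dif_pos p.2]
  have hsum : ∀ G : MvPolynomial (V3 m) ℂ, ∑ i, ∑ j, Q i j * DD i (DD j G) =
      ∑ p : {p : Fin (m + 1) × Fin (m + 1) // p.1 ≤ p.2}, v p * DD p.1.1 (DD p.1.2 G) := by
    intro G
    rw [← Fintype.sum_prod_type' (f := fun i j => Q i j * DD i (DD j G))]
    rw [← sum_filter_of_ne (p := fun p : Fin (m + 1) × Fin (m + 1) => p.1 ≤ p.2)]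
    · rw [sum_subtype (univ.filter fun p : Fin (m + 1) × Fin (m + 1) => p.1 ≤ p.2)
        (p := fun p => p.1 ≤ p.2) (fun x => by simp)]
      exact sum_congr rfl fun p _ => by rw [hQv p]
    · intro p _ hp
      by_contra hc
      apply hp
      rw [hQ]
      simp only
      rw [dif_neg hc, zero_mul]
  refine ⟨Q, ?_, ?_, ?_⟩
  · obtain ⟨p, hp⟩ : ∃ p, v p ≠ 0 := by
      by_contra hc
      push Not at hc
      exact hv0 (funext hc)
    exact ⟨p.1.1, p.1.2, by rw [hQv p]; exact hp⟩
  · intro i j hij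
    rw [hQ]
    simp only
    rw [dif_neg (not_le.2 hij)]
  · set E : Fin (N + 1) → MvPolynomial (V3 m) ℂ :=
      fun k => ∑ i, ∑ j, Q i j * DD i (DD j (gg f k)) with hE
    have hE0 : ∀ k, k ≠ k₀ → E k = 0 := by
      intro k hk
      rw [hE]
      simp only
      rw [hsum]
      exact hv ⟨k, hk⟩
    have hid : E 0 * fb f 0 - ∑ l : Fin N, E l.succ * fb f l.succ = 0 := by
      have h1 : ∑ i, ∑ j, Q i j * (DD i (DD j (gg f 0)) * fb f 0 -
          ∑ l : Fin N, DD i (DD j (gg f l.succ)) * fb f l.succ) = 0 := by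
        refine sum_eq_zero fun i _ => sum_eq_zero fun j _ => ?_
        rw [ident2 hf', mul_zero]
      rw [← h1, hE]
      simp only [mul_sub, sum_sub_distrib, mul_sum, sum_mul]
      refine congrArg₂ (fun a b => a - b) ?_ ?_
      · refine sum_congr rfl fun i _ => sum_congr rfl fun j _ => ?_
        ring
      · rw [sum_comm]
        refine sum_congr rfl fun i _ => ?_
        rw [sum_comm]
        refine sum_congr rfl fun j _ => sum_congr rfl fun l _ => ?_
        ring
    have hk : E k₀ * fb f k₀ = 0 := by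
      rcases Fin.eq_zero_or_eq_succ k₀ with h | ⟨l, h⟩
      · rw [sum_eq_zero, sub_zero] at hid
        · rw [h]
          exact hid
        · intro l _
          rw [hE0 _ (by rw [h]; exact Fin.succ_ne_zero l), zero_mul]
      · rw [hE0 0 (by rw [h]; exact (Fin.succ_ne_zero l).symm), zero_mul, zero_sub,
          neg_eq_zero, sum_eq_single l] at hid
        · rw [h]
          exact hid
        · intro l' _ hl'
          rw [hE0 _ (by rw [h]; exact fun h' => hl' (Fin.succ_injective _ h')), zero_mul]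
        · intro h'
          exact absurd (mem_univ _) h'
    intro k
    show E k = 0
    by_cases h : k = k₀
    · rw [h]
      exact (mul_eq_zero.1 hk).resolve_right (fb_ne_zero hk₀)
    · exact hE0 k h

end Pool.Agent.Helper96.DC
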