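import Pool.Agent.Helper69.DC.Goals

/-!
# Project DC: the shift argument (`G_S`)
-/

set_option autoImplicit false

namespace Pool.Agent.Helper96.DC

open Pool.Agent.Helper69.DC Finset

section

variable {d M : ℕ} (A : ℕ → Fin M → ℂ)

/-- The combination with coefficients `κ`. -/
noncomputable def comb (d : ℕ) : (Fin (d + 1) → ℂ) →ₗ[ℂ] (Fin M → ℂ) where
  toFun κ := ∑ j : Fin (d + 1), κ j • A j
  map_add' κ κ' := by simp only [Pi.add_apply, add_smul, sum_add_distrib]
  map_smul' c κ := by simp only [Pi.smul_apply, smul_eq_mul, mul_smul, smul_sum, RingHom.id_apply]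

/-- The shifted combination. -/
noncomputable def shc (d : ℕ) : (Fin (d + 1) → ℂ) →ₗ[ℂ] (Fin M → ℂ) where
  toFun κ := ∑ j : Fin d, κ j.castSucc • A (j + 1)
  map_add' κ κ' := by simp only [Pi.add_apply, add_smul, sum_add_distrib]
  map_smul' c κ := by simp only [Pi.smul_apply, smul_eq_mul, mul_smul, smul_sum, RingHom.id_apply]

/-- The shift. -/
noncomputable def shift (φ : (Fin M → ℂ) →ₗ[ℂ] ℂ) (d : ℕ) :
    (Fin (d + 1) → ℂ) →ₗ[ℂ] (Fin (d + 1) → ℂ) where
  toFun κ := Fin.cons (-φ (shc A d κ)) (fun j : Fin d => κ j.castSucc)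
  map_add' κ κ' := by
    funext i
    refine Fin.cases ?_ (fun j => ?_) i
    · simp only [map_add, Fin.cons_zero, Pi.add_apply]
      ring
    · simp only [Fin.cons_succ, Pi.add_apply]
  map_smul' c κ := by
    funext i
    refine Fin.cases ?_ (fun j => ?_) i
    · simp only [map_smul, Fin.cons_zero, Pi.smul_apply, smul_eq_mul, RingHom.id_apply]
      ring
    · simp only [Fin.cons_succ, Pi.smul_apply, RingHom.id_apply]

theorem comb_shift (φ : (Fin M → ℂ) →ₗ[ℂ] ℂ) (κ : Fin (d + 1) → ℂ) :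
    comb A d (shift A φ d κ) = -(φ (shc A d κ) • A 0) + shc A d κ := by
  show ∑ j : Fin (d + 1), (Fin.cons (-φ (shc A d κ)) (fun j : Fin d => κ j.castSucc) :
    Fin (d + 1) → ℂ) j • A j = _
  rw [Fin.sum_univ_succ]
  simp only [Fin.cons_zero, Fin.cons_succ, Fin.val_zero, Fin.val_succ, neg_smul]
  rfl

end

theorem g_s : G_S := by
  intro d M A h0 hd hv hsh
  rw [Fintype.linearIndependent_iff]
  by_contra hne
  push Not at hne
  obtain ⟨g, hg, i, hi⟩ := hne
  -- a functional with value `1` at `A 0`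
  obtain ⟨q, hq⟩ : ∃ q, A 0 q ≠ 0 := by
    by_contra hc
    push Not at hc
    exact h0 (funext hc)
  set φ : (Fin M → ℂ) →ₗ[ℂ] ℂ := (A 0 q)⁻¹ • LinearMap.proj q with hφ
  have hφ1 : φ (A 0) = 1 := by
    rw [hφ]
    simp [hq]
  set K := LinearMap.ker (comb A d) with hK
  have hgK : g ∈ K := by
    rw [hK, LinearMap.mem_ker]
    exact hg
  have hstab : ∀ κ ∈ K, shift A φ d κ ∈ K := by
    intro κ hκ
    rw [hK, LinearMap.mem_ker] at hκ ⊢
    have hκ' : ∑ j : Fin (d + 1), κ j • A j = 0 := hκ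
    obtain ⟨c, hc⟩ := hsh (fun j => if h : j < d + 1 then κ ⟨j, h⟩ else 0) (by
      rw [Finset.sum_range]
      rw [← hκ']
      refine sum_congr rfl fun j _ => ?_
      rw [dif_pos j.2])
    have hs : shc A d κ = c • A 0 := by
      rw [← hc, Finset.sum_range]
      show ∑ j : Fin d, κ j.castSucc • A (j + 1) = _
      refine sum_congr rfl fun j _ => ?_
      rw [dif_pos (by omega)]
      rfl
    rw [comb_shift, hs, map_smul, hφ1, smul_eq_mul, mul_one, neg_add_cancel]
  have : Nontrivial K := by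
    refine ⟨⟨⟨g, hgK⟩, 0, fun h => hi ?_⟩⟩
    have h1 : g = 0 := congrArg Subtype.val h
    rw [h1]
    rfl
  obtain ⟨e, he⟩ := Module.End.exists_eigenvalue ((shift A φ d).restrict hstab)
  obtain ⟨κ, hκ⟩ := he.exists_hasEigenvector
  have hκ0 : (κ : Fin (d + 1) → ℂ) ≠ 0 := fun h => hκ.2 (Subtype.ext h)
  have hκe : shift A φ d κ = e • (κ : Fin (d + 1) → ℂ) := congrArg Subtype.val hκ.apply_eq_smul
  have hstep : ∀ j : Fin d, (κ : Fin (d + 1) → ℂ) j.castSucc =
      e * (κ : Fin (d + 1) → ℂ) j.succ := by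
    intro j
    have h1 := congrFun hκe j.succ
    exact h1
  have hL : ∑ j : Fin (d + 1), (κ : Fin (d + 1) → ℂ) j • A j = 0 := κ.2
  by_cases hez : e = 0
  · -- all the coefficients but the last one are zero
    have hz : ∀ j : Fin d, (κ : Fin (d + 1) → ℂ) j.castSucc = 0 := by
      intro j
      rw [hstep, hez, zero_mul]
    rw [Fin.sum_univ_castSucc] at hL
    simp only [hz, zero_smul, sum_const_zero, zero_add, Fin.val_last] at hL
    have hlast : (κ : Fin (d + 1) → ℂ) (Fin.last d) = 0 :=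
      (smul_eq_zero.1 hL).resolve_right hd
    apply hκ0
    funext j
    refine Fin.lastCases hlast (fun j => ?_) j
    exact hz j
  · have hpow : ∀ n : ℕ, ∀ hn : n < d + 1, (κ : Fin (d + 1) → ℂ) ⟨n, hn⟩ =
        (e⁻¹) ^ n * (κ : Fin (d + 1) → ℂ) 0 := by
      intro n
      induction n with
      | zero => intro hn; simp
      | succ n ih =>
        intro hn
        have h1 := hstep ⟨n, by omega⟩
        have h2 := ih (by omega)
        have h3 : (κ : Fin (d + 1) → ℂ) (Fin.castSucc ⟨n, by omega⟩) =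
            (κ : Fin (d + 1) → ℂ) ⟨n, by omega⟩ := rfl
        have h4 : (κ : Fin (d + 1) → ℂ) (Fin.succ ⟨n, by omega⟩) =
            (κ : Fin (d + 1) → ℂ) ⟨n + 1, hn⟩ := rfl
        rw [h3, h4, h2] at h1
        rw [pow_succ, mul_assoc, mul_comm e⁻¹, ← mul_assoc, h1, mul_comm e, mul_assoc,
          mul_inv_cancel₀ hez, mul_one]
    have hk0 : (κ : Fin (d + 1) → ℂ) 0 ≠ 0 := by
      intro h
      apply hκ0
      funext j
      have := hpow j j.2
      rw [h, mul_zero] at this
      exact this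
    apply hv e⁻¹
    have h5 : (κ : Fin (d + 1) → ℂ) 0 • ∑ j ∈ range (d + 1), (e⁻¹) ^ j • A j = 0 := by
      rw [← hL, smul_sum, Finset.sum_range]
      refine sum_congr rfl fun j _ => ?_
      rw [smul_smul, mul_comm, ← hpow j j.2]
    exact (smul_eq_zero.1 h5).resolve_left hk0

end Pool.Agent.Helper96.DC
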